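import Pool.Agent.SA32.Plus
import Pool.Agent.SA33.Lift

set_option autoImplicit false

/-! `PlusGood T' k` implies `Splittable T k` for every tree `T` with twin reduction `T'`. -/

namespace Pool.Agent.SA32

open SimpleGraph Pool.Agent.SA33 Pool.Agent.SA36 Pool.Agent.SA97

theorem plusGood_splittable {m : ℕ} {T : SimpleGraph (Fin m)} {τ' : Type}
    {T' : SimpleGraph τ'} {π : Fin m → τ'} (h : TwinMap T T' π) (h3 : 3 ≤ Nat.card τ') {k : ℕ}
    (hk : 3 ≤ k) (hP : PlusGood T' k) : Splittable T k := by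
  obtain ⟨a, b, c, h1, h2, h4⟩ := h.exists_nonadj h3
  refine splittable_of_plusGood h.tree h.tree' h.twinFree h.surj h.adj (by omega)
    (inC_complete h1 h2 h4 (by omega)) ?_ hP
  intro hns σ' S' s' hPG σ _ S s hS ϖ hϖ hadj hs
  exact pg_lift h h3 hk hns hPG S hS s ϖ hϖ hadj hs

theorem hf_map {τ τ' : Type} {T : SimpleGraph τ} {T' : SimpleGraph τ'} (e : T ≃g T') (a b v : τ)
    (hv : v ∈ hf T a b) : e v ∈ hf T' (e a) (e b) := by
  let hom : T.deleteEdges {s(a, b)} →g T'.deleteEdges {s(e a, e b)} := ⟨e, by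
    intro x y hxy
    rw [deleteEdges_adj] at hxy ⊢
    refine ⟨e.map_adj_iff.2 hxy.1, fun h => hxy.2 ?_⟩
    rw [Set.mem_singleton_iff, Sym2.eq_iff] at h ⊢
    rcases h with ⟨h1, h2⟩ | ⟨h1, h2⟩
    · exact Or.inl ⟨e.injective h1, e.injective h2⟩
    · exact Or.inr ⟨e.injective h1, e.injective h2⟩⟩
  exact Reachable.map hom hv

theorem hf_iso {τ τ' : Type} {T : SimpleGraph τ} {T' : SimpleGraph τ'} (e : T ≃g T') (a b v : τ) :
    v ∈ hf T a b ↔ e v ∈ hf T' (e a) (e b) := by
  refine ⟨hf_map e a b v, fun h => ?_⟩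
  have := hf_map e.symm _ _ _ h
  simpa using this

/-- The isomorphism between halves. -/
def hfIso {τ τ' : Type} {T : SimpleGraph τ} {T' : SimpleGraph τ'} (e : T ≃g T') (a b : τ) :
    T.induce (hf T a b) ≃g T'.induce (hf T' (e a) (e b)) where
  toEquiv :=
    { toFun := fun v => ⟨e v.1, (hf_iso e a b v.1).1 v.2⟩
      invFun := fun v => ⟨e.symm v.1, (hf_iso e a b _).2 (by
        have := v.2
        rwa [e.apply_symm_apply])⟩
      left_inv := fun v => Subtype.ext (e.symm_apply_apply v.1)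
      right_inv := fun v => Subtype.ext (e.apply_symm_apply v.1) }
  map_rel_iff' := by
    intro x y
    exact e.map_adj_iff

end Pool.Agent.SA32
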