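import Pool.Agent.SA32.GluePlus
import Pool.Agent.SA36.Tree
import Pool.Agent.SA33.Pg

set_option autoImplicit false

/-! The second interface (next to `EdgeGood`): GLUE+ at a vertex of the twin-free tree `T'`. -/

namespace Pool.Agent.SA32

open SimpleGraph Pool.Agent.SA33 Pool.Agent.SA36 Pool.Agent.SA97

/-- Any finite graph may be used in `RootGood`. -/
theorem rootGood_of {τ : Type*} {T : SimpleGraph τ} {k : ℕ} {σ : Type*} {S : SimpleGraph σ}
    {s : σ} {V : Type*} [Finite V] {F : SimpleGraph V} (hF : InC T k F) (x0 : V)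
    (h : ∀ Q : Set V, x0 ∈ Q → F.CliqueFreeOn Q (k - 1) →
      ∃ φ : S ↪g F, φ s = x0 ∧ ∀ x, x ≠ s → φ x ∉ Q) : RootGood T k S s := by
  classical
  obtain ⟨n, ⟨e⟩⟩ := Finite.exists_equiv_fin V
  let F' : SimpleGraph (Fin n) := F.comap e.symm
  let iso : F ≃g F' := ⟨e, by intro a b; simp [F']⟩
  refine ⟨n, F', iso x0, hF.iso iso.symm, ?_⟩
  intro Q hQ hf
  have hx : x0 ∈ iso ⁻¹' Q := hQ
  obtain ⟨φ, h1, h2⟩ := h _ hx (cliqueFreeOn_comap iso.toEmbedding hf)
  exact ⟨φ.trans iso.toEmbedding, congrArg iso h1, h2⟩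

/-- Rooted goodness passes to smaller rooted graphs. -/
theorem RootGood.mono {τ : Type*} {T : SimpleGraph τ} {k : ℕ} {σ σ' : Type*}
    {S : SimpleGraph σ} {s : σ} {S' : SimpleGraph σ'} {s' : σ'} (h : RootGood T k S s)
    (e : S' ↪g S) (he : e s' = s) : RootGood T k S' s' := by
  obtain ⟨n, F, x0, hF, hr⟩ := h
  refine ⟨n, F, x0, hF, ?_⟩
  intro Q hQ hf
  obtain ⟨φ, h1, h2⟩ := hr Q hQ hf
  refine ⟨e.trans φ, by rw [← h1, ← he]; rfl, fun x hx => h2 _ ?_⟩
  intro h
  exact hx (e.injective (h.trans he.symm))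

/-- Independent blow-up. -/
theorem rootGood_blow {τ τ' : Type*} {T : SimpleGraph τ} {T' : SimpleGraph τ'} (πT : τ → τ')
    (hsurj : Function.Surjective πT) (hπT : ∀ x y, T.Adj x y ↔ T'.Adj (πT x) (πT y))
    (htw : TwinFree T') {σ σ' : Type*} [Finite σ] {S : SimpleGraph σ} {s : σ}
    {S' : SimpleGraph σ'} {s' : σ'} (π : σ → σ') (hπ : ∀ x y, S.Adj x y ↔ S'.Adj (π x) (π y))
    (hs : ∀ x, π x = s' ↔ x = s) {k : ℕ} (hG : RootGood T' k S' s') :
    RootGood T k S s := by
  classical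
  obtain ⟨n, F, x0, hF, hr⟩ := hG
  refine rootGood_of (blow_inC πT hsurj hπT htw hF σ) (x0, s) ?_
  intro Q hQ hQf
  let M' : Set (Fin n) := {v | ∃ i, (v, i) ∈ Q}
  have hM'f : F.CliqueFreeOn M' (k - 1) := by
    intro t ht hc
    have : Nonempty σ := ⟨s⟩
    have hM'1 : ∀ v, v ∈ M' → ∃ i, (v, i) ∈ Q := fun v hv => hv
    choose! idx hidx using hM'1
    apply hQf (t := t.map ⟨fun v => (v, idx v), fun a b h => congrArg Prod.fst h⟩)
    · intro x hx
      simp only [Finset.coe_map, Set.mem_image, Finset.mem_coe] at hx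
      obtain ⟨v, hv, rfl⟩ := hx
      exact hidx v (ht hv)
    · constructor
      · intro x hx y hy hxy
        simp only [Finset.coe_map, Set.mem_image, Finset.mem_coe] at hx hy
        obtain ⟨v, hv, rfl⟩ := hx
        obtain ⟨w, hw, rfl⟩ := hy
        have hvw : v ≠ w := fun h => hxy (by rw [h])
        exact hc.1 hv hw hvw
      · rw [Finset.card_map]
        exact hc.2
  obtain ⟨φ, hφ1, hφ2⟩ := hr M' ⟨s, hQ⟩ hM'f
  refine ⟨⟨⟨fun x => (φ (π x), x), fun x y h => (Prod.mk.inj h).2⟩, ?_⟩, ?_, ?_⟩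
  · intro x y
    change F.Adj (φ (π x)) (φ (π y)) ↔ S.Adj x y
    rw [φ.map_adj_iff, hπ]
  · change (φ (π s), s) = (x0, s)
    rw [(hs s).2 rfl, hφ1]
  · intro x hx hmem
    exact hφ2 (π x) (fun h => hx ((hs x).1 h)) ⟨x, hmem⟩

/-- GLUE+ at a vertex of the twin-free tree. -/
def PlusGood {τ : Type} (T : SimpleGraph τ) (k : ℕ) : Prop :=
  ∃ x b1, T.Adj b1 x ∧ (∃ y, y ≠ x ∧ T.Adj b1 y) ∧ (∃ c, c ≠ b1 ∧ T.Adj c x) ∧
    (∀ b, T.Adj b x → (∃ y, y ≠ x ∧ T.Adj b y) →
      PG T k (T.induce (hf T b x)) ⟨b, self_mem_hf b x⟩) ∧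
    RootGood T k (T.induce (hf T x b1)) ⟨x, self_mem_hf x b1⟩

section

variable {m : ℕ} {T : SimpleGraph (Fin m)} {τ : Type} {T' : SimpleGraph τ}

/-- Vertices with two neighbours have only one preimage. -/
theorem fib_unique (hT : T.IsAcyclic) {π : Fin m → τ} (hsurj : Function.Surjective π)
    (hπ : ∀ x y, T.Adj x y ↔ T'.Adj (π x) (π y)) {v' b c : τ} (hb : T'.Adj b v')
    (hc : T'.Adj c v') (hbc : b ≠ c) {v w : Fin m} (hv : π v = v') (hw : π w = v') : v = w := by
  by_contra hne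
  obtain ⟨b, rfl⟩ := hsurj b
  obtain ⟨c, rfl⟩ := hsurj c
  have h1 : T.Adj v b := by rw [T.adj_comm, hπ, hv]; exact hb
  have h2 : T.Adj b w := by rw [hπ, hw]; exact hb
  have h3 : T.Adj v c := by rw [T.adj_comm, hπ, hv]; exact hc
  have h4 : T.Adj c w := by rw [hπ, hw]; exact hc
  exact hbc (congrArg π (no_C4 hT h1 h2 h3 h4 hne))

theorem hf_proj (hT : T.IsAcyclic) (hT' : T'.IsAcyclic) {π : Fin m → τ}
    (hπ : ∀ x y, T.Adj x y ↔ T'.Adj (π x) (π y)) {a b : Fin m} (hab : T.Adj a b)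
    (hb : ∀ v, π v = π b → v = b) {v : Fin m} (hv : v ∈ hf T a b) :
    π v ∈ hf T' (π a) (π b) := by
  refine hf_induction (p := fun v => π v ∈ hf T' (π a) (π b)) (self_mem_hf _ _) ?_ hv
  intro v w hv hv' hvw hw
  rcases hf_closed hT' ((hπ _ _).1 hab) hv' ((hπ _ _).1 hvw) with h | ⟨_, h⟩
  · exact h
  · rw [hb w h] at hw
    exact absurd hw (not_mem_hf hT hab)

theorem mem_hf_iff (hT : T.IsTree) (hT' : T'.IsAcyclic) {π : Fin m → τ}
    (hπ : ∀ x y, T.Adj x y ↔ T'.Adj (π x) (π y)) {a b : Fin m} (hab : T.Adj a b)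
    (ha : ∀ v, π v = π a → v = a) (hb : ∀ v, π v = π b → v = b) (v : Fin m) :
    v ∈ hf T a b ↔ π v ∈ hf T' (π a) (π b) := by
  refine ⟨hf_proj hT.2 hT' hπ hab hb, fun h => ?_⟩
  rcases hf_cover hT hab v with h1 | h1
  · exact h1
  · exact (hf_disjoint hT' ((hπ _ _).1 hab) h (hf_proj hT.2 hT' hπ hab.symm ha h1)).elim

/-- The lifting property of `PG` (proved in SA33). -/
def Lift (T : SimpleGraph (Fin m)) (T' : SimpleGraph τ) (k : ℕ) : Prop :=
  ∀ {σ' : Type} (S' : SimpleGraph σ') (s' : σ'), PG T' k S' s' →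
    ∀ {σ : Type} [Finite σ] (S : SimpleGraph σ) (s : σ), S.IsAcyclic →
      ∀ ϖ : σ → σ', Function.Surjective ϖ → (∀ x y, S.Adj x y ↔ S'.Adj (ϖ x) (ϖ y)) →
        (∀ x, ϖ x = s' ↔ x = s) → Good T k S s

theorem good_point' {k : ℕ} {n : ℕ} (hn : 0 < n) {G : SimpleGraph (Fin n)} (hG : InC T k G)
    {σ : Type*} {S : SimpleGraph σ} {s : σ} (h1 : ∀ x, x = s) : Good T k S s := by
  refine ⟨n, G, hn, hG, ?_⟩
  rintro B ⟨b, hb⟩ -
  refine ⟨⟨⟨fun _ => b, fun x y _ => (h1 x).trans (h1 y).symm⟩, ?_⟩, hb,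
    fun x hx => absurd (h1 x) hx⟩
  intro x y
  constructor
  · intro h
    exact absurd h (G.loopless.irrefl _)
  · intro h
    rw [h1 x, h1 y] at h
    exact absurd h (S.loopless.irrefl _)

theorem splittable_of_plusGood (hT : T.IsTree) (hT' : T'.IsTree) (htw : TwinFree T')
    {π : Fin m → τ} (hsurj : Function.Surjective π)
    (hπ : ∀ x y, T.Adj x y ↔ T'.Adj (π x) (π y)) {k : ℕ} (hk : 2 ≤ k)
    (hK : InC T k (⊤ : SimpleGraph (Fin 2)))
    (hlift : ¬ Splittable T k → Lift T T' k) (h : PlusGood T' k) : Splittable T k := by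
  classical
  by_contra hns
  have hlift : Lift T T' k := hlift hns
  obtain ⟨x', b1', hb1x, ⟨y', hyx, hb1y⟩, ⟨c', hcb, hcx⟩, hPG, hRG⟩ := h
  obtain ⟨x, rfl⟩ := hsurj x'
  obtain ⟨b1, rfl⟩ := hsurj b1'
  have hx : ∀ v, π v = π x → v = x := fun v hv =>
    fib_unique hT.2 hsurj hπ hb1x hcx (Ne.symm hcb) hv rfl
  have hb1 : ∀ v, π v = π b1 → v = b1 := fun v hv =>
    fib_unique hT.2 hsurj hπ hb1x.symm hb1y.symm (Ne.symm hyx) hv rfl
  have hbx : T.Adj b1 x := (hπ _ _).2 hb1x
  -- the branches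
  let ι : Type := {a : Fin m // T.Adj a x}
  let σ : ι → Type := fun a => {v : Fin m // v ∈ hf T a.1 x}
  let B : ∀ a : ι, SimpleGraph (σ a) := fun a => T.induce (hf T a.1 x)
  let b : ∀ a : ι, σ a := fun a => ⟨a.1, self_mem_hf _ _⟩
  have hB : ∀ a : ι, Good T k (B a) (b a) := by
    rintro ⟨a, ha⟩
    by_cases hleaf : ∃ y, y ≠ π x ∧ T'.Adj (π a) y
    · obtain ⟨y, hy, hay⟩ := hleaf
      have ha1 : ∀ v, π v = π a → v = a := fun v hv =>
        fib_unique hT.2 hsurj hπ ((hπ _ _).1 ha).symm hay.symm (Ne.symm hy) hv rfl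
      have hiff := mem_hf_iff hT hT'.2 hπ ha ha1 hx
      refine hlift (T'.induce (hf T' (π a) (π x))) ⟨π a, self_mem_hf _ _⟩
        (hPG (π a) ((hπ _ _).1 ha) ⟨y, hy, hay⟩) _ _ ?_
        (fun v => ⟨π v.1, (hiff v.1).1 v.2⟩) ?_ ?_ ?_
      · exact hT.2.induce _
      · rintro ⟨v', hv'⟩
        obtain ⟨v, rfl⟩ := hsurj v'
        exact ⟨⟨v, (hiff v).2 hv'⟩, rfl⟩
      · intro v w
        exact hπ v.1 w.1
      · rintro ⟨v, hv⟩
        constructor
        · intro h
          exact Subtype.ext (ha1 v (congrArg Subtype.val h))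
        · intro h
          have : v = a := congrArg Subtype.val h
          subst this
          rfl
    · push Not at hleaf
      refine good_point' (by omega : 0 < 2) hK ?_
      rintro ⟨v, hv⟩
      apply Subtype.ext
      change v = a
      refine hf_induction (p := fun v => v = a) rfl ?_ hv
      rintro v w hv rfl hvw hw
      exfalso
      have h1 : T'.Adj (π v) (π w) := (hπ _ _).1 hvw
      have h2 : π w = π x := by
        by_contra hne
        exact hleaf _ hne h1
      rw [hx w h2] at hw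
      exact not_mem_hf hT.2 ha hw
  have hstar : StarEmb T B b := by
    intro V G v0 φ h1 h2 h3
    have hbr : ∀ u, u ≠ x → ∃ a : ι, u ∈ hf T a.1 x := by
      intro u hu
      obtain ⟨a, ha, hua⟩ := branch_cover hT x u hu
      exact ⟨⟨a, ha⟩, hua⟩
    have : Nonempty ι := ⟨⟨b1, hbx⟩⟩
    choose! br hbr' using hbr
    let f : Fin m → V := fun u => if hu : u = x then v0 else φ (br u) ⟨u, hbr' u hu⟩
    have hfx : f x = v0 := by simp [f]
    have hfu : ∀ u, u ≠ x → ∀ (a : ι) (hua : u ∈ hf T a.1 x), f u = φ a ⟨u, hua⟩ := by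
      intro u hu a hua
      have : br u = a := Subtype.ext (branch_disjoint hT.2 (br u).2 a.2 (hbr' u hu) hua)
      subst this
      simp only [f, dif_neg hu]
    refine ⟨⟨⟨f, ?_⟩, ?_⟩⟩
    · intro u w huw
      by_cases hu : u = x
      · by_cases hw : w = x
        · rw [hu, hw]
        · exfalso
          rw [hu, hfx, hfu w hw (br w) (hbr' w hw)] at huw
          exact h1 _ _ huw.symm
      · by_cases hw : w = x
        · exfalso
          rw [hw, hfx, hfu u hu (br u) (hbr' u hu)] at huw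
          exact h1 _ _ huw
        · rw [hfu u hu _ (hbr' u hu), hfu w hw _ (hbr' w hw)] at huw
          by_cases hbb : br u = br w
          · have hw' : w ∈ hf T (br u).1 x := by rw [hbb]; exact hbr' w hw
            rw [← hfu w hw _ (hbr' w hw), hfu w hw _ hw'] at huw
            have := (φ (br u)).injective huw
            exact congrArg Subtype.val this
          · exact absurd huw (h3 _ _ hbb _ _).1
    · intro u w
      change G.Adj (f u) (f w) ↔ T.Adj u w
      have hxw : ∀ w, G.Adj (f x) (f w) ↔ T.Adj x w := by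
        intro w
        by_cases hw : w = x
        · rw [hw]
          exact ⟨fun h => absurd h (G.loopless.irrefl _),
            fun h => absurd h (T.loopless.irrefl _)⟩
        · rw [hfx, hfu w hw _ (hbr' w hw), h2]
          constructor
          · intro h
            have : w = (br w).1 := congrArg Subtype.val h
            rw [this]
            exact (br w).2.symm
          · intro h
            apply Subtype.ext
            change w = (br w).1
            exact adj_far_end hT.2 (br w).2 (hbr' w hw) h.symm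
      by_cases hu : u = x
      · rw [hu]; exact hxw w
      · by_cases hw : w = x
        · rw [hw, G.adj_comm, T.adj_comm]; exact hxw u
        · by_cases hbb : br u = br w
          · have hw' : w ∈ hf T (br u).1 x := by rw [hbb]; exact hbr' w hw
            rw [hfu u hu _ (hbr' u hu), hfu w hw _ hw']
            exact (φ (br u)).map_adj_iff
          · rw [hfu u hu _ (hbr' u hu), hfu w hw _ (hbr' w hw)]
            refine ⟨fun h => absurd h (h3 _ _ hbb _ _).2, fun h => ?_⟩
            exfalso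
            rcases hf_closed hT.2 (br u).2 (hbr' u hu) h with h4 | ⟨_, h4⟩
            · exact hbb (Subtype.ext (branch_disjoint hT.2 (br u).2 (br w).2 h4 (hbr' w hw)))
            · exact hw h4
  -- the rest
  have hiff := mem_hf_iff hT hT'.2 hπ hbx.symm hx hb1
  have hS : RootGood T k (T.induce (hf T x b1)) ⟨x, self_mem_hf x b1⟩ := by
    refine rootGood_blow π hsurj hπ htw (fun v => ⟨π v.1, (hiff v.1).1 v.2⟩) ?_ ?_ hRG
    · intro v w
      exact hπ v.1 w.1
    · rintro ⟨v, hv⟩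
      constructor
      · intro h
        exact Subtype.ext (hx v (congrArg Subtype.val h))
      · intro h
        have : v = x := congrArg Subtype.val h
        subst this
        rfl
  apply hns
  refine glue_plus hT.1 hk hK B b hB hstar _ _ hS ⟨b1, hbx⟩ ⟨?_⟩
  let f : Fin m → {v // v ∈ hf T x b1} ⊕ {v // v ∈ hf T b1 x} := fun u =>
    if hu : u ∈ hf T x b1 then Sum.inl ⟨u, hu⟩
    else Sum.inr ⟨u, (hf_cover hT hbx u).resolve_right hu⟩
  have hfl : ∀ u (hu : u ∈ hf T x b1), f u = Sum.inl ⟨u, hu⟩ := fun u hu => dif_pos hu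
  have hfr : ∀ u (hu : u ∈ hf T b1 x), f u = Sum.inr ⟨u, hu⟩ := fun u hu =>
    dif_neg (fun h => hf_disjoint hT.2 hbx hu h)
  have hcross : ∀ u w, u ∈ hf T x b1 → w ∈ hf T b1 x → (T.Adj u w ↔ u = x ∧ w = b1) := by
    intro u w hu hw
    constructor
    · intro h
      rcases hf_closed hT.2 hbx.symm hu h with h' | h'
      · exact (hf_disjoint hT.2 hbx hw h').elim
      · exact h'
    · rintro ⟨rfl, rfl⟩
      exact hbx.symm
  refine ⟨⟨f, ?_⟩, ?_⟩
  · intro u w huw
    by_cases hu : u ∈ hf T x b1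
    · by_cases hw : w ∈ hf T x b1
      · rw [hfl u hu, hfl w hw] at huw
        exact congrArg Subtype.val (Sum.inl.inj huw)
      · rw [hfl u hu, hfr w ((hf_cover hT hbx w).resolve_right hw)] at huw
        cases huw
    · by_cases hw : w ∈ hf T x b1
      · rw [hfl w hw, hfr u ((hf_cover hT hbx u).resolve_right hu)] at huw
        cases huw
      · rw [hfr u ((hf_cover hT hbx u).resolve_right hu),
          hfr w ((hf_cover hT hbx w).resolve_right hw)] at huw
        exact congrArg Subtype.val (Sum.inr.inj huw)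
  · intro u w
    change (glue (T.induce (hf T x b1)) (T.induce (hf T b1 x)) {⟨x, self_mem_hf x b1⟩}
      {⟨b1, self_mem_hf b1 x⟩}).Adj (f u) (f w) ↔ T.Adj u w
    rcases hf_cover hT hbx u with hu | hu <;> rcases hf_cover hT hbx w with hw | hw
    · rw [hfr u hu, hfr w hw]; exact Iff.rfl
    · rw [hfr u hu, hfl w hw, T.adj_comm, hcross w u hw hu]
      exact and_congr Subtype.ext_iff Subtype.ext_iff
    · rw [hfl u hu, hfr w hw, hcross u w hu hw]
      exact and_congr Subtype.ext_iff Subtype.ext_iff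
    · rw [hfl u hu, hfl w hw]; exact Iff.rfl

end

end Pool.Agent.SA32
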