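import Pool.Agent.SA32.Plus
import Pool.Agent.SA97.Trees

set_option autoImplicit false

/-! The gadget for `S(2,2,1)`: `S(2,1)` rooted at its centre is rooted-good. -/

namespace Pool.Agent.SA32

open SimpleGraph Pool.Agent.SA33 Pool.Agent.SA97

inductive GV (k : ℕ) : Type
  | x : GV k
  | l (s : Fin (k - 2)) : GV k
  | d (c : Fin (k - 1)) (s : Fin (k - 2)) : GV k
  | v (c : Fin (k - 1)) : GV k
  deriving DecidableEq, Fintype

/-- adjacency -/
def GV.adj {k : ℕ} : GV k → GV k → Prop
  | .x, .l _ => True
  | .l _, .x => True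
  | .x, .d _ _ => True
  | .d _ _, .x => True
  | .l s, .l s' => s ≠ s'
  | .d _ s, .d _ s' => s ≠ s'
  | .d c _, .v c' => c = c'
  | .v c', .d c _ => c = c'
  | .v c, .v c' => c ≠ c'
  | _, _ => False

def G2 (k : ℕ) : SimpleGraph (GV k) where
  Adj := GV.adj
  symm := ⟨by
    rintro (_ | s | ⟨c, s⟩ | c) (_ | s' | ⟨c', s'⟩ | c') h <;> simp_all [GV.adj, eq_comm]⟩
  loopless := ⟨by
    rintro (_ | s | ⟨c, s⟩ | c) h <;> simp_all [GV.adj]⟩

theorem G2_noClique {k : ℕ} (hk : 3 ≤ k) : IsEmpty ((⊤ : SimpleGraph (Fin k)) ↪g G2 k) := by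
  classical
  refine ⟨fun f => ?_⟩
  have hadj : ∀ a b : Fin k, a ≠ b → GV.adj (f a) (f b) := fun a b hab =>
    f.map_adj_iff.2 hab
  have key : ∀ g : GV k → Fin (k - 1), (∀ a b, a ≠ b → g (f a) ≠ g (f b)) → False := by
    intro g hg
    have hinj : Function.Injective (fun a => g (f a)) := by
      intro a b hab
      by_contra hne
      exact hg a b hne hab
    have := Fintype.card_le_of_injective _ hinj
    simp only [Fintype.card_fin] at this
    omega
  let last : Fin (k - 1) := ⟨k - 2, by omega⟩
  let up : Fin (k - 2) → Fin (k - 1) := fun s => ⟨s, by omega⟩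
  have hup : ∀ s, up s ≠ last := by
    intro s h
    have := congrArg Fin.val h
    simp only [up, last] at this
    omega
  have hup' : ∀ s s', up s = up s' → s = s' := by
    intro s s' h
    have := congrArg Fin.val h
    simp only [up] at this
    exact Fin.ext this
  by_cases h1 : ∃ a c s, f a = GV.d c s
  · obtain ⟨a0, c0, s0, h0⟩ := h1
    apply key (fun u => match u with
      | .x => last
      | .l s => up s
      | .d _ s => up s
      | .v _ => last)
    intro a b hab heq
    have hab' := hadj a b hab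
    have ha0 : a ≠ a0 → GV.adj (f a) (GV.d c0 s0) := fun h => by
      rw [← h0]; exact hadj a a0 h
    have hb0 : b ≠ a0 → GV.adj (f b) (GV.d c0 s0) := fun h => by
      rw [← h0]; exact hadj b a0 h
    by_cases haa : a = a0
    · subst haa
      have hb := hb0 hab.symm
      rw [h0] at hab' heq
      rcases hfb : f b with _ | s | ⟨c, s⟩ | c <;> rw [hfb] at hab' heq hb
      · exact hup _ heq
      · exact hb
      · exact hab' (hup' _ _ heq)
      · exact hup _ heq
    · have ha := ha0 haa
      by_cases hbb : b = a0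
      · subst hbb
        rw [h0] at hab' heq
        rcases hfa : f a with _ | s | ⟨c, s⟩ | c <;> rw [hfa] at hab' heq ha
        · exact hup _ heq.symm
        · exact ha
        · exact hab' (hup' _ _ heq)
        · exact hup _ heq.symm
      · have hb := hb0 hbb
        rcases hfa : f a with _ | s | ⟨c, s⟩ | c <;> rcases hfb : f b with _ | s' | ⟨c', s'⟩ | c' <;>
          rw [hfa, hfb] at hab' <;> rw [hfa, hfb] at heq <;> rw [hfa] at ha <;> rw [hfb] at hb
        · exact hab'
        · exact hb
        · exact hup _ heq.symm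
        · exact hab'
        · exact ha
        · exact ha
        · exact ha
        · exact ha
        · exact hup _ heq
        · exact hb
        · exact hab' (hup' _ _ heq)
        · exact hup _ heq
        · exact hab'
        · exact hab'
        · exact hup _ heq.symm
        · change c0 = c at ha
          change c0 = c' at hb
          exact hab' (ha.symm.trans hb)
  · push Not at h1
    by_cases h2 : ∃ a c, f a = GV.v c
    · obtain ⟨a0, c0, h0⟩ := h2
      have hv : ∀ a, ∃ c, f a = GV.v c := by
        intro a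
        by_cases ha : a = a0
        · exact ⟨c0, by rw [ha, h0]⟩
        · have := hadj a a0 ha
          rw [h0] at this
          rcases hfa : f a with _ | s | ⟨c, s⟩ | c <;> rw [hfa] at this
          · exact this.elim
          · exact this.elim
          · exact absurd hfa (h1 a c s)
          · exact ⟨c, rfl⟩
      choose c hc using hv
      have hinj : Function.Injective c := by
        intro a b hab
        by_contra hne
        have := hadj a b hne
        rw [hc, hc] at this
        exact this hab
      have := Fintype.card_le_of_injective _ hinj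
      simp only [Fintype.card_fin] at this
      omega
    · push Not at h2
      apply key (fun u => match u with
        | .x => last
        | .l s => up s
        | .d _ s => up s
        | .v _ => last)
      intro a b hab heq
      have hab' := hadj a b hab
      rcases hfa : f a with _ | s | ⟨c, s⟩ | c <;> rcases hfb : f b with _ | s' | ⟨c', s'⟩ | c' <;>
        rw [hfa, hfb] at hab' <;> rw [hfa, hfb] at heq
      · exact hab'
      · exact hup _ heq.symm
      · exact h1 b _ _ hfb
      · exact hab'
      · exact hup _ heq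
      · exact hab' (hup' _ _ heq)
      · exact hab'
      · exact hab'
      · exact h1 a _ _ hfa
      · exact h1 a _ _ hfa
      · exact h1 a _ _ hfa
      · exact h1 a _ _ hfa
      · exact h2 a _ hfa
      · exact h2 a _ hfa
      · exact h2 a _ hfa
      · exact h2 a _ hfa

/-- `S(2,2,1)` -/
abbrev S221 : SimpleGraph (Fin 6) := tree 6 [0, 0, 0, 0, 1, 2]

theorem G2_noTree {k : ℕ} : IsEmpty (S221 ↪g G2 k) := by
  refine ⟨fun f => ?_⟩
  have hadj : ∀ a b : Fin 6, GV.adj (f a) (f b) ↔ S221.Adj a b := fun a b => f.map_adj_iff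
  have hinj : ∀ a b : Fin 6, f a = f b → a = b := fun a b h => f.injective h
  -- x is not used
  have hx : ∀ z, f z ≠ GV.x := by
    intro z hz
    have hv : ∀ u, u ≠ z → ¬ S221.Adj z u → ∃ c, f u = GV.v c := by
      intro u hu hzu
      rw [← hadj, hz] at hzu
      rcases hfu : f u with _ | s | ⟨c, s⟩ | c <;> rw [hfu] at hzu
      · exact absurd (hinj _ _ (hfu.trans hz.symm)) hu
      · exact absurd trivial hzu
      · exact absurd trivial hzu
      · exact ⟨c, rfl⟩
    have hvv : ∀ u w, u ≠ w → u ≠ z → w ≠ z → ¬ S221.Adj z u → ¬ S221.Adj z w →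
        S221.Adj u w := by
      intro u w huw hu hw hzu hzw
      obtain ⟨c, hc⟩ := hv u hu hzu
      obtain ⟨c', hc'⟩ := hv w hw hzw
      rw [← hadj, hc, hc']
      rintro rfl
      exact huw (hinj _ _ (hc.trans hc'.symm))
    revert hvv
    clear hv hz
    revert z
    decide
  -- l is not used
  have hl : ∀ z, ∀ s, f z ≠ GV.l s := by
    have step : ∀ a b, S221.Adj a b → (∃ s, f a = GV.l s) → ∃ s, f b = GV.l s := by
      rintro a b hab ⟨s, hs⟩
      rw [← hadj, hs] at hab
      rcases hfb : f b with _ | s' | ⟨c, s'⟩ | c <;> rw [hfb] at hab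
      · exact absurd hfb (hx b)
      · exact ⟨s', rfl⟩
      · exact hab.elim
      · exact hab.elim
    have h0 : ¬ ∃ s, f 0 = GV.l s := by
      intro h
      obtain ⟨s, hs⟩ := step 0 1 (by decide) h
      obtain ⟨s', hs'⟩ := step 0 2 (by decide) h
      have h1 : ¬ S221.Adj 1 2 := by decide
      rw [← hadj, hs, hs'] at h1
      have h2 : s = s' := by
        by_contra hne
        exact h1 hne
      have := hinj 1 2 (by rw [hs, hs', h2])
      exact absurd this (by decide)
    have h1 : ¬ ∃ s, f 1 = GV.l s := fun h => h0 (step 1 0 (by decide) h)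
    have h2 : ¬ ∃ s, f 2 = GV.l s := fun h => h0 (step 2 0 (by decide) h)
    have h3 : ¬ ∃ s, f 3 = GV.l s := fun h => h0 (step 3 0 (by decide) h)
    have h4 : ¬ ∃ s, f 4 = GV.l s := fun h => h1 (step 4 1 (by decide) h)
    have h5 : ¬ ∃ s, f 5 = GV.l s := fun h => h2 (step 5 2 (by decide) h)
    intro z s hz
    fin_cases z
    · exact h0 ⟨s, hz⟩
    · exact h1 ⟨s, hz⟩
    · exact h2 ⟨s, hz⟩
    · exact h3 ⟨s, hz⟩
    · exact h4 ⟨s, hz⟩
    · exact h5 ⟨s, hz⟩
  have hdv : ∀ z, (∃ c s, f z = GV.d c s) ∨ ∃ c, f z = GV.v c := by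
    intro z
    rcases hfz : f z with _ | s | ⟨c, s⟩ | c
    · exact absurd hfz (hx z)
    · exact absurd hfz (hl z s)
    · exact Or.inl ⟨c, s, rfl⟩
    · exact Or.inr ⟨c, rfl⟩
  have hvv : ∀ u w, u ≠ w → ¬ S221.Adj u w → (∃ c, f u = GV.v c) → (∃ c, f w = GV.v c) →
      False := by
    rintro u w huw h ⟨c, hc⟩ ⟨c', hc'⟩
    rw [← hadj, hc, hc'] at h
    apply h
    rintro rfl
    exact huw (hinj _ _ (hc.trans hc'.symm))
  -- bad triples
  have bad : ∀ u w y, S221.Adj u y → ¬ S221.Adj u w → ¬ S221.Adj w y →
      (∃ c s, f u = GV.d c s) → (∃ c s, f w = GV.d c s) → (∃ c s, f y = GV.d c s) → False := by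
    rintro u w y h1 h2 h3 ⟨c, s, hu⟩ ⟨c', s', hw⟩ ⟨c'', s'', hy⟩
    rw [← hadj, hu, hy] at h1
    rw [← hadj, hu, hw] at h2
    rw [← hadj, hw, hy] at h3
    have e1 : s = s' := by
      by_contra hne
      exact h2 hne
    have e2 : s' = s'' := by
      by_contra hne
      exact h3 hne
    exact h1 (e1.trans e2)
  rcases hdv 3 with h3 | h3
  · rcases hdv 1 with h1 | h1
    · rcases hdv 4 with h4 | h4
      · exact bad 1 3 4 (by decide) (by decide) (by decide) h1 h3 h4
      · rcases hdv 2 with h2 | h2
        · rcases hdv 5 with h5 | h5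
          · exact bad 2 3 5 (by decide) (by decide) (by decide) h2 h3 h5
          · exact hvv 4 5 (by decide) (by decide) h4 h5
        · exact hvv 4 2 (by decide) (by decide) h4 h2
    · rcases hdv 2 with h2 | h2
      · rcases hdv 5 with h5 | h5
        · exact bad 2 3 5 (by decide) (by decide) (by decide) h2 h3 h5
        · exact hvv 1 5 (by decide) (by decide) h1 h5
      · exact hvv 1 2 (by decide) (by decide) h1 h2
  · rcases hdv 1 with h1 | h1
    · rcases hdv 4 with h4 | h4
      · rcases hdv 2 with h2 | h2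
        · exact bad 1 2 4 (by decide) (by decide) (by decide) h1 h2 h4
        · exact hvv 3 2 (by decide) (by decide) h3 h2
      · exact hvv 3 4 (by decide) (by decide) h3 h4
    · exact hvv 3 1 (by decide) (by decide) h3 h1

theorem G2_inC {k : ℕ} (hk : 3 ≤ k) : InC S221 k (G2 k) := ⟨G2_noTree, G2_noClique hk⟩

/-- A clique given by an injective function. -/
theorem not_cliqueFreeOn {V : Type*} {G : SimpleGraph V} {Q : Set V} {n : ℕ}
    (g : Fin n → V) (hg : ∀ a b, a ≠ b → G.Adj (g a) (g b)) (hQ : ∀ a, g a ∈ Q)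
    (h : G.CliqueFreeOn Q n) : False := by
  classical
  have hinj : Function.Injective g := by
    intro a b hab
    by_contra hne
    have := hg a b hne
    rw [hab] at this
    exact G.loopless.irrefl _ this
  apply h (t := Finset.univ.map ⟨g, hinj⟩)
  · intro x hx
    rw [Finset.coe_map] at hx
    obtain ⟨a, -, rfl⟩ := hx
    exact hQ a
  · constructor
    · intro x hx y hy hxy
      rw [Finset.coe_map] at hx hy
      obtain ⟨a, -, rfl⟩ := hx
      obtain ⟨b, -, rfl⟩ := hy
      exact hg a b (fun h => hxy (by rw [h]))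
    · rw [Finset.card_map, Finset.card_univ, Fintype.card_fin]

/-- `S(2,1)` rooted at its centre (root 0, leaf 1, path 0 - 2 - 3) is rooted-good for every graph
containing `S(2,2,1)`. -/
theorem rootGood_B21 {k : ℕ} (hk : 3 ≤ k) {τ : Type*} {T : SimpleGraph τ} (e : S221 ↪g T) :
    RootGood T k B21 (0 : Fin 4) := by
  classical
  refine rootGood_of (F := G2 k) ⟨⟨fun f => G2_noTree.false (e.trans f)⟩, G2_noClique hk⟩ GV.x ?_
  intro Q hxQ hQ
  -- a leaf
  have h1 : ∃ s, GV.l s ∉ Q := by
    by_contra hcon
    push Not at hcon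
    refine not_cliqueFreeOn (fun a : Fin (k - 1) => if ha : (a : ℕ) < k - 2 then
      GV.l ⟨a, ha⟩ else GV.x) ?_ ?_ hQ
    · intro a b hab
      have hab' : (a : ℕ) ≠ b := fun h => hab (Fin.ext h)
      by_cases ha : (a : ℕ) < k - 2 <;> by_cases hb : (b : ℕ) < k - 2 <;>
        simp only [ha, hb, dif_pos, dif_neg, not_false_eq_true]
      · change (⟨a, ha⟩ : Fin (k - 2)) ≠ ⟨b, hb⟩
        intro h
        rw [Fin.mk.injEq] at h
        exact hab' h
      · trivial
      · trivial
      · omega
    · intro a
      by_cases ha : (a : ℕ) < k - 2 <;> simp only [ha, dif_pos, dif_neg, not_false_eq_true]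
      · exact hcon _
      · exact hxQ
  have h2 : ∃ c, GV.v c ∉ Q := by
    by_contra hcon
    push Not at hcon
    exact not_cliqueFreeOn (fun a : Fin (k - 1) => GV.v a) (fun a b hab => hab) hcon hQ
  obtain ⟨s, hs⟩ := h1
  obtain ⟨c, hc⟩ := h2
  have h3 : ∃ s, GV.d c s ∉ Q := by
    by_contra hcon
    push Not at hcon
    refine not_cliqueFreeOn (fun a : Fin (k - 1) => if ha : (a : ℕ) < k - 2 then
      GV.d c ⟨a, ha⟩ else GV.x) ?_ ?_ hQ
    · intro a b hab
      have hab' : (a : ℕ) ≠ b := fun h => hab (Fin.ext h)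
      by_cases ha : (a : ℕ) < k - 2 <;> by_cases hb : (b : ℕ) < k - 2 <;>
        simp only [ha, hb, dif_pos, dif_neg, not_false_eq_true]
      · change (⟨a, ha⟩ : Fin (k - 2)) ≠ ⟨b, hb⟩
        intro h
        rw [Fin.mk.injEq] at h
        exact hab' h
      · trivial
      · trivial
      · omega
    · intro a
      by_cases ha : (a : ℕ) < k - 2 <;> simp only [ha, dif_pos, dif_neg, not_false_eq_true]
      · exact hcon _
      · exact hxQ
  obtain ⟨s', hs'⟩ := h3
  let w : Fin 4 → GV k := ![GV.x, GV.l s, GV.d c s', GV.v c]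
  obtain ⟨φ, hφ⟩ := embed_of B21 (G2 k) w (by
    intro a b hab
    fin_cases a <;> fin_cases b <;> first | exact absurd hab (by decide) | skip
    · exact ⟨fun _ => by decide, fun _ => trivial⟩
    · exact ⟨fun _ => by decide, fun _ => trivial⟩
    · exact ⟨fun h => h.elim, fun h => absurd h (by decide)⟩
    · exact ⟨fun h => h.elim, fun h => absurd h (by decide)⟩
    · exact ⟨fun h => h.elim, fun h => absurd h (by decide)⟩
    · exact ⟨fun _ => by decide, fun _ => rfl⟩) (by
    intro a b hab
    fin_cases a <;> fin_cases b <;> first | exact absurd hab (by decide) | simp [w])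
  refine ⟨φ, (hφ 0), ?_⟩
  intro a ha
  rw [hφ]
  fin_cases a
  · exact absurd rfl ha
  · exact hs
  · exact hs'
  · exact hc

theorem rootGood_S221 {k : ℕ} (hk : 3 ≤ k) : RootGood S221 k B21 (0 : Fin 4) :=
  rootGood_B21 hk (RelEmbedding.refl _)

end Pool.Agent.SA32
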