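import Pool.Agent.SA36.Case2
import Pool.Agent.SA33.Half

set_option autoImplicit false

/-! From the host to `BadEdge`: a tree with at least 11 vertices and property P(4) has an edge with
both halves good. -/

namespace Pool.Agent.SA32

open SimpleGraph Pool.Agent.SA33 Pool.Agent.SA36 Pool.Agent.SA97

/-- Property P(4): in every host some hyperedge contains at least four vertices of `T` of odd depth
and at least four of positive even depth. -/
def P4 {τ : Type} (T : SimpleGraph τ) (k L : ℕ) : Prop :=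
  ∀ (σ : Type) (S : SimpleGraph σ) (s : σ) (d : σ → ℕ), (∀ x, d x = 0 ↔ x = s) →
    ∀ (V : Type) (G : SimpleGraph V) (H : Host k L S d G) (f : T ↪g G),
      ∃ e : H.E, 4 ≤ {x | f x ∈ Set.range (H.vtx e) ∧ H.cls (f x) = H.tj e}.ncard ∧
        4 ≤ {x | f x ∈ Set.range (H.vtx e) ∧ H.cls (f x) = H.ti e + 1}.ncard

theorem P4.mono {τ τ' : Type} {T : SimpleGraph τ} {T' : SimpleGraph τ'} [Finite τ'] {k L : ℕ}
    (h : P4 T k L) (g : T ↪g T') : P4 T' k L := by
  intro σ S s d hd V G H f
  obtain ⟨e, h1, h2⟩ := h σ S s d hd V G H (g.trans f)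
  refine ⟨e, h1.trans ?_, h2.trans ?_⟩
  · exact Set.ncard_le_ncard_of_injOn g (fun x hx => hx) (fun x _ y _ hxy => g.injective hxy)
      (Set.toFinite _)
  · exact Set.ncard_le_ncard_of_injOn g (fun x hx => hx) (fun x _ y _ hxy => g.injective hxy)
      (Set.toFinite _)

/-- A class near to two far classes is determined. -/
theorem mid_unique {k : ℕ} (hk : 3 ≤ k) {j l c c' : ZMod (2 * k - 1)} (hjl : Far l j)
    (h1 : ¬ Far c j) (h2 : ¬ Far c l) (h3 : ¬ Far c' j) (h4 : ¬ Far c' l) : ¬ Far c c' := by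
  have e4 : ((4 : ℕ) : ZMod (2 * k - 1)) ≠ 0 := natCast_ne_zero' (by omega) (by omega)
  have e3 : ((3 : ℕ) : ZMod (2 * k - 1)) ≠ 0 := natCast_ne_zero' (by omega) (by omega)
  have e2 : ((2 : ℕ) : ZMod (2 * k - 1)) ≠ 0 := natCast_ne_zero' (by omega) (by omega)
  have key : ∀ c : ZMod (2 * k - 1), ¬ Far c j → ¬ Far c l →
      (c = j + 1 ∧ l = c + 1) ∨ (j = c + 1 ∧ c = l + 1) := by
    intro c h1 h2
    unfold Far at h1 h2
    rw [not_and_or, not_and_or, not_not, not_not, not_not] at h1 h2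
    rcases h1 with h1 | h1 | h1
    · subst h1
      exact absurd hjl.symm (by
        unfold Far
        rw [not_and_or, not_and_or, not_not, not_not, not_not]
        exact h2)
    · rcases h2 with h2 | h2 | h2
      · subst h2
        exact absurd h1 hjl.2.1
      · exfalso
        rw [h1] at h2
        exact hjl.1 (add_right_cancel h2).symm
      · exact Or.inl ⟨h1, h2⟩
    · rcases h2 with h2 | h2 | h2
      · subst h2
        exact absurd h1 hjl.2.2
      · exact Or.inr ⟨h1, h2⟩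
      · exfalso
        rw [← h2] at h1
        exact hjl.1 h1.symm
  rcases key c h1 h2 with ⟨a1, a2⟩ | ⟨a1, a2⟩ <;> rcases key c' h3 h4 with ⟨b1, b2⟩ | ⟨b1, b2⟩
  · rw [a1, b1]; exact not_far_self _
  · exfalso
    apply e4
    have : j = j + 4 := by
      calc j = c' + 1 := b1
        _ = l + 1 + 1 := by rw [b2]
        _ = c + 1 + 1 + 1 := by rw [a2]
        _ = j + 1 + 1 + 1 + 1 := by rw [a1]
        _ = j + 4 := by ring
    have h5 := left_eq_add.1 this
    exact_mod_cast h5
  · exfalso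
    apply e4
    have : j = j + 4 := by
      calc j = c + 1 := a1
        _ = l + 1 + 1 := by rw [a2]
        _ = c' + 1 + 1 + 1 := by rw [b2]
        _ = j + 1 + 1 + 1 + 1 := by rw [b1]
        _ = j + 4 := by ring
    have h5 := left_eq_add.1 this
    exact_mod_cast h5
  · rw [a2, b2]; exact not_far_self _

/-- The colour along a walk. -/
theorem col_walk {τ : Type*} {T : SimpleGraph τ} {col : τ → Bool}
    (hcol : ∀ x y, T.Adj x y → col x ≠ col y) {a x : τ} (p : T.Walk a x) :
    col x = col a ↔ p.length % 2 = 0 := by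
  induction p with
  | nil => simp
  | @cons u v w h p ih =>
    have h1 := hcol _ _ h
    rw [Walk.length_cons]
    rcases Nat.mod_two_eq_zero_or_one p.length with h2 | h2
    · have h3 := ih.2 h2
      rw [h3]
      constructor
      · intro h4; exact absurd h4.symm h1
      · intro h4; omega
    · have h3 : col w ≠ col v := fun h4 => by have := ih.1 h4; omega
      constructor
      · intro _; omega
      · intro _
        revert h1 h3
        generalize col u = p1
        generalize col v = p2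
        generalize col w = p3
        revert p1 p2 p3
        decide

theorem col_dist {τ : Type*} {T : SimpleGraph τ} (hT : T.Connected) {col : τ → Bool}
    (hcol : ∀ x y, T.Adj x y → col x ≠ col y) (a x : τ) :
    col x = col a ↔ T.dist a x % 2 = 0 := by
  obtain ⟨p, hp⟩ := hT.exists_walk_length_eq_dist a x
  rw [← hp]
  exact col_walk hcol p

/-- THE BRIDGE. -/
theorem badEdge_of_host {τ : Type} [Finite τ] {T : SimpleGraph τ} (hT : T.IsTree)
    {col : τ → Bool} (hcol : ∀ x y, T.Adj x y → col x ≠ col y) {k L : ℕ} (hk : 3 ≤ k)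
    (hL : 3 ≤ L) (h4 : P4 T k L) {a b : τ} {V : Type} {G : SimpleGraph V}
    (H : Host k L (T.induce (hf T a b)) (fun x => T.dist a x.1) G) (f : T ↪g G) :
    BadEdge T col a b := by
  classical
  have hd0 : ∀ x : hf T a b, T.dist a x.1 = 0 ↔ x = ⟨a, self_mem_hf a b⟩ := by
    intro x
    rw [hT.connected.dist_eq_zero_iff]
    constructor
    · intro hh; exact Subtype.ext hh.symm
    · intro hh; rw [hh]
  obtain ⟨e, c1, c2⟩ := h4 _ _ ⟨a, self_mem_hf a b⟩ _ hd0 V G H f
  have n1 : H.ti e ≠ H.tj e := (H.far_ij e).1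
  have n2 : H.ti e + 1 ≠ H.tj e := (H.far_lj e).1
  have n3 : H.ti e ≠ H.ti e + 1 := by
    intro h
    have e1 : ((1 : ℕ) : ZMod (2 * k - 1)) ≠ 0 := natCast_ne_zero' (by omega) (by omega)
    exact e1 (by exact_mod_cast left_eq_add.1 h)
  let P : Set τ := {x | f x ∈ Set.range (H.vtx e) ∧ H.cls (f x) = H.tj e}
  let R : Set τ := {x | f x ∈ Set.range (H.vtx e) ∧ H.cls (f x) = H.ti e + 1}
  let Rt : Set τ := {x | f x ∈ Set.range (H.vtx e) ∧ H.cls (f x) = H.ti e}
  have hin : ∀ x, (x ∈ P ∨ x ∈ R ∨ x ∈ Rt) ↔ f x ∈ Set.range (H.vtx e) := by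
    intro x
    constructor
    · rintro (h | h | h) <;> exact h.1
    · rintro ⟨p, hp⟩
      have hc := H.cls_vtx e p
      rw [hp] at hc
      unfold tcl at hc
      split_ifs at hc with h1 h2
      · exact Or.inr (Or.inr ⟨⟨p, hp⟩, hc⟩)
      · exact Or.inl ⟨⟨p, hp⟩, hc⟩
      · exact Or.inr (Or.inl ⟨⟨p, hp⟩, hc⟩)
  have hex : ∀ x, f x ∈ Set.range (H.vtx e) → ∃ p, H.vtx e p = f x := fun x h => h
  let ψ : τ → τ := fun x => if h : f x ∈ Set.range (H.vtx e) then (hex x h).choose.1 else a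
  have hψ : ∀ x (h : f x ∈ Set.range (H.vtx e)), ∃ p : hf T a b, H.vtx e p = f x ∧ ψ x = p.1 := by
    intro x h
    refine ⟨(hex x h).choose, (hex x h).choose_spec, ?_⟩
    change (if h : f x ∈ Set.range (H.vtx e) then (hex x h).choose.1 else a) = _
    rw [dif_pos h]
  -- nonadjacent pairs
  have hone : ∀ z, f z ∉ Set.range (H.vtx e) → ∀ x x', f x ∈ Set.range (H.vtx e) →
      f x' ∈ Set.range (H.vtx e) → Far (H.cls (f z)) (H.cls (f x)) →
      Far (H.cls (f z)) (H.cls (f x')) → ¬ T.Adj z x → ¬ T.Adj z x' → x = x' := by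
    intro z hz x x' hx hx' hfx hfx' hzx hzx'
    by_contra hne
    obtain ⟨e1, p1, q1, hp1, hq1⟩ := H.cov _ _ hfx (fun h => hzx (f.map_adj_iff.1 h))
    obtain ⟨e2, p2, q2, hp2, hq2⟩ := H.cov _ _ hfx' (fun h => hzx' (f.map_adj_iff.1 h))
    have h1 := H.acyc3 hL (a := f z) (b := f x) (c := f x') (e := e1) (f := e) (g := e2)
      (fun h => hz (by rw [h]; exact hx)) (fun h => hne (f.injective h))
      (fun h => hz (by rw [h]; exact hx')) ⟨p1, hp1⟩ ⟨q1, hq1⟩ hx hx' ⟨q2, hq2⟩ ⟨p2, hp2⟩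
    apply hz
    rw [← h1.1]
    exact ⟨p1, hp1⟩
  have hnot : ∀ z, z ∉ P → z ∉ R → z ∉ Rt → f z ∉ Set.range (H.vtx e) := by
    intro z h1 h2 h3 h
    rcases (hin z).2 h with h' | h' | h'
    · exact h1 h'
    · exact h2 h'
    · exact h3 h'
  have hadjfar : ∀ x y, T.Adj x y → Far (H.cls (f x)) (H.cls (f y)) := fun x y h =>
    H.adj_far _ _ (f.map_adj_iff.2 h)
  -- a vertex with no neighbour in a big class set is near to it
  have hnear : ∀ (c : ZMod (2 * k - 1)) (A : Set τ), 4 ≤ A.ncard →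
      (∀ x ∈ A, f x ∈ Set.range (H.vtx e) ∧ H.cls (f x) = c) → ∀ z, f z ∉ Set.range (H.vtx e) →
      (∀ x ∈ A, ¬ T.Adj z x) → ¬ Far (H.cls (f z)) c := by
    intro c A hA hAc z hz hzA hfar
    obtain ⟨x, y, hx, hy, hxy⟩ := (Set.one_lt_ncard_iff (Set.toFinite _)).1
      (show 1 < A.ncard by omega)
    exact hxy (hone z hz x y (hAc x hx).1 (hAc y hy).1 (by rw [(hAc x hx).2]; exact hfar)
      (by rw [(hAc y hy).2]; exact hfar) (hzA x hx) (hzA y hy))
  have hBlk : Blk T P R Rt := by
    refine ⟨?_, ?_, c1, c2, ?_, ?_, ?_, ?_, ?_, ?_, ?_, ?_⟩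
    · intro x hx y hy h
      have := hadjfar x y h
      rw [hx.2, hy.2] at this
      exact not_far_self _ this
    · intro x hx y hy h
      have := hadjfar x y h
      rw [hx.2, hy.2] at this
      exact not_far_self _ this
    · intro x hx hx'
      exact n2 (hx'.2.symm.trans hx.2)
    · intro x hx hx'
      exact n1 (hx.2.symm.trans hx'.2)
    · intro x hx hx'
      exact n3 (hx.2.symm.trans hx'.2)
    · intro x hx y hy
      obtain ⟨p, hp⟩ := hx.1
      obtain ⟨q, hq⟩ := hy.1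
      have key : ∀ p : hf T a b, H.cls (H.vtx e p) = H.ti e → p = ⟨a, self_mem_hf a b⟩ := by
        intro p hp
        rw [H.cls_vtx] at hp
        unfold tcl at hp
        split_ifs at hp with h1 h2
        · exact (hd0 p).1 h1
        · exact absurd hp.symm n1
        · exact absurd hp.symm n3
      have h1 := key p (by rw [hp]; exact hx.2)
      have h2 := key q (by rw [hq]; exact hy.2)
      apply f.injective
      rw [← hp, ← hq, h1, h2]
    · left
      intro x hx y hy h
      have := hadjfar x y h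
      rw [hx.2, hy.2] at this
      exact not_far_succ _ this
    · rintro z h1 h2 h3 ⟨w, hw, hzw⟩ x hx x' hx' hzx hzx'
      have hfar := hadjfar z w hzw
      rw [hw.2] at hfar
      exact hone z (hnot z h1 h2 h3) x x' hx.1 hx'.1 (by rw [hx.2]; exact hfar)
        (by rw [hx'.2]; exact hfar) hzx hzx'
    · rintro z h1 h2 h3 ⟨w, hw, hzw⟩ x hx x' hx' hzx hzx'
      have hfar := hadjfar z w hzw
      rw [hw.2] at hfar
      exact hone z (hnot z h1 h2 h3) x x' hx.1 hx'.1 (by rw [hx.2]; exact hfar)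
        (by rw [hx'.2]; exact hfar) hzx hzx'
    · intro z z' h1 h2 h3 h1' h2' h3' hP hR hP' hR' hadj
      refine mid_unique hk (H.far_lj e) ?_ ?_ ?_ ?_ (hadjfar z z' hadj)
      · exact hnear _ P c1 (fun x hx => hx) z (hnot z h1 h2 h3) hP
      · exact hnear _ R c2 (fun x hx => hx) z (hnot z h1 h2 h3) hR
      · exact hnear _ P c1 (fun x hx => hx) z' (hnot z' h1' h2' h3') hP'
      · exact hnear _ R c2 (fun x hx => hx) z' (hnot z' h1' h2' h3') hR'
  refine ⟨P, R, Rt, ψ, hBlk, ?_, ?_, ?_, ?_, ?_, ?_, ?_⟩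
  · intro x y hx hy hxy
    obtain ⟨p, hp, hp'⟩ := hψ x ((hin x).1 hx)
    obtain ⟨q, hq, hq'⟩ := hψ y ((hin y).1 hy)
    apply f.injective
    rw [← hp, ← hq]
    congr 1
    apply Subtype.ext
    rw [← hp', ← hq', hxy]
  · intro x hx
    obtain ⟨p, hp, hp'⟩ := hψ x ((hin x).1 hx)
    rw [hp']
    exact p.2
  · intro x y hx hy
    obtain ⟨p, hp, hp'⟩ := hψ x ((hin x).1 hx)
    obtain ⟨q, hq, hq'⟩ := hψ y ((hin y).1 hy)
    rw [hp', hq']
    have h1 := H.adj_vtx e p q
    rw [hp, hq, f.map_adj_iff] at h1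
    exact h1.symm
  · intro x hx
    obtain ⟨p, hp, hp'⟩ := hψ x hx.1
    rw [hp']
    have hc := hx.2
    rw [← hp, H.cls_vtx] at hc
    unfold tcl at hc
    split_ifs at hc with h1 h2
    · exact congrArg Subtype.val ((hd0 p).1 h1)
    · exact absurd hc.symm n1
    · exact absurd hc.symm n3
  · intro x hx h
    obtain ⟨p, hp, hp'⟩ := hψ x hx.1
    have hpa : T.dist a p.1 = 0 := by rw [← hp', h]; exact T.dist_self
    have hc := hx.2
    rw [← hp, H.cls_vtx] at hc
    unfold tcl at hc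
    rw [if_pos hpa] at hc
    exact n1 hc
  · intro x hx h
    obtain ⟨p, hp, hp'⟩ := hψ x hx.1
    have hpa : T.dist a p.1 = 0 := by rw [← hp', h]; exact T.dist_self
    have hc := hx.2
    rw [← hp, H.cls_vtx] at hc
    unfold tcl at hc
    rw [if_pos hpa] at hc
    exact n3 hc
  · left
    intro x hx h
    obtain ⟨p, hp, hp'⟩ := hψ x hx.1
    rw [hp', col_dist hT.connected hcol] at h
    have hc := hx.2
    rw [← hp, H.cls_vtx] at hc
    unfold tcl at hc
    split_ifs at hc with h1 h2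
    · exact n1 hc
    · omega
    · exact n2 hc

/-- `exists_good_edge` with nontrivial halves. -/
theorem exists_good_edge' {τ : Type*} [Finite τ] {T : SimpleGraph τ} (hT : T.IsTree)
    (htw : TwinFree T) (hn : 11 ≤ Nat.card τ)
    {col : τ → Bool} (hcol : ∀ x y, T.Adj x y → col x ≠ col y) :
    ∃ a b, T.Adj a b ∧ ¬ BadEdge T col a b ∧ ¬ BadEdge T col b a ∧
      2 ≤ (hf T a b).ncard ∧ 2 ≤ (hf T b a).ncard := by
  by_cases hex : ∃ a b, T.Adj a b ∧ 5 ≤ (hf T a b).ncard ∧ 5 ≤ (hf T b a).ncard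
  · obtain ⟨a, b, hab, h1, h2⟩ := hex
    have key : ∀ a b, T.Adj a b → 5 ≤ (hf T b a).ncard → ¬ BadEdge T col a b := by
      rintro a b hab h ⟨P, R, Rt, ψ, hb, hinj, hmap, -⟩
      have h1 := outside_ge hT hab hinj hmap
      have h2 := hb.outside_le hT htw
      omega
    exact ⟨a, b, hab, key a b hab h2, key b a hab.symm h1, by omega, by omega⟩
  · have hno : ∀ a b, T.Adj a b → (hf T a b).ncard ≤ 4 ∨ (hf T b a).ncard ≤ 4 := by
      intro a b hab
      by_contra hcon
      rw [not_or] at hcon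
      exact hex ⟨a, b, hab, by omega, by omega⟩
    obtain ⟨r, hr⟩ := exists_center hT (by omega) hno
    have hne : {b | T.Adj b r}.Nonempty := by
      have h1 : 1 < (Set.univ : Set τ).ncard := by
        rw [Set.ncard_univ]; omega
      obtain ⟨x, y, -, -, hxy⟩ := (Set.one_lt_ncard_iff (Set.toFinite _)).1 h1
      by_cases hx : x = r
      · obtain ⟨b, hb, -⟩ := branch_cover hT r y (fun h => hxy (hx.trans h.symm))
        exact ⟨b, hb⟩
      · obtain ⟨b, hb, -⟩ := branch_cover hT r x hx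
        exact ⟨b, hb⟩
    obtain ⟨b1, hb1, hmax⟩ := Set.exists_max_image {b | T.Adj b r} (fun b => (hf T b r).ncard)
      (Set.toFinite _) hne
    have g1 := hr b1 hb1
    have g2 := hf_ncard_add hT (hb1 : T.Adj b1 r)
    have g3 := two_le_max hT htw (by omega) (r := r) (b1 := b1) (fun b hb => hmax b hb)
    refine ⟨r, b1, (hb1 : T.Adj b1 r).symm, ?_, ?_, by omega, g3⟩
    · exact case2 hT htw (by omega) hr hb1 (fun b hb => hmax b hb) hno hcol
    · rintro ⟨P, R, Rt, ψ, hb, hinj, hmap, -⟩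
      have h1 := outside_ge hT hb1 hinj hmap
      have h2 : {z | z ∉ P ∧ z ∉ R ∧ z ∉ Rt} = {x | x ∈ P ∨ x ∈ R ∨ x ∈ Rt}ᶜ := by
        ext z
        simp only [Set.mem_ofPred_eq, Set.mem_compl_iff, not_or]
      have h3 := Set.ncard_add_ncard_compl {x | x ∈ P ∨ x ∈ R ∨ x ∈ Rt}
      have h5 : (P ∪ R).ncard ≤ {x | x ∈ P ∨ x ∈ R ∨ x ∈ Rt}.ncard := by
        apply Set.ncard_le_ncard _ (Set.toFinite _)
        rintro x (hx | hx)
        · exact Or.inl hx
        · exact Or.inr (Or.inl hx)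
      have h6 : (P ∪ R).ncard = P.ncard + R.ncard := by
        apply Set.ncard_union_eq _ (Set.toFinite _) (Set.toFinite _)
        rw [Set.disjoint_left]
        exact hb.dPR
      have h9 := hb.cP
      have h10 := hb.cR
      rw [h2] at h1
      omega

theorem exists_nbr_of_two_le {τ : Type*} [Finite τ] {T : SimpleGraph τ} (hT : T.IsTree) {a b : τ}
    (hab : T.Adj a b) (h : 2 ≤ (hf T a b).ncard) : ∃ x, x ≠ b ∧ T.Adj a x := by
  by_contra hcon
  push Not at hcon
  have h1 : ∀ v ∈ hf T a b, v = a := by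
    intro v hv
    refine hf_induction (p := fun v => v = a) rfl ?_ hv
    rintro v w _ rfl hvw hw
    exfalso
    have hwb : w = b := by
      by_contra hne
      exact hcon w hne hvw
    rw [hwb] at hw
    exact not_mem_hf hT.2 hab hw
  obtain ⟨x, y, hx, hy, hxy⟩ := (Set.one_lt_ncard_iff (Set.toFinite _)).1
    (show 1 < (hf T a b).ncard by omega)
  exact hxy ((h1 x hx).trans (h1 y hy).symm)

/-- A twin-free tree with at least 11 vertices and property P(4) is `EdgeGood`. -/
theorem edgeGood_of_P4 {τ : Type} [Finite τ] {T : SimpleGraph τ} (hT : T.IsTree)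
    (htw : TwinFree T) (hn : 11 ≤ Nat.card τ) {k L : ℕ} (hk : 3 ≤ k) (hL : 3 ≤ L)
    (h4 : P4 T k L) : EdgeGood T k := by
  obtain ⟨col, hcol⟩ := exists_col hT.2
  obtain ⟨a, b, hab, h1, h2, h3, h5⟩ := exists_good_edge' hT htw hn hcol
  refine edgeGood_of_halves hT hab (exists_nbr_of_two_le hT hab h3)
    (exists_nbr_of_two_le hT hab.symm h5) ?_ ?_
  · exact PG.good (good_half_of_host hT hk L (fun V G H => ⟨fun f =>
      h1 (badEdge_of_host hT hcol hk hL h4 H f)⟩))
  · exact PG.good (good_half_of_host hT hk L (fun V G H => ⟨fun f =>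
      h2 (badEdge_of_host hT hcol hk hL h4 H f)⟩))

end Pool.Agent.SA32
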