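import Pool.Agent.SA32.Sim

set_option autoImplicit false

/-! GLUE+: if all branches at `x` are good and the rest of the tree, without one branch, is
rooted-good at one vertex of one graph, then the class is splittable. -/

namespace Pool.Agent.SA32

open SimpleGraph Pool.Agent.SA33

/-- `(S, s)` is rooted-good: one finite graph `F` of the class with a vertex `x0` such that every
`K_(k-1)`-free set of vertices containing `x0` meets some copy of `S` rooted at `x0` only in
`x0`. -/
def RootGood {τ : Type*} (T : SimpleGraph τ) (k : ℕ) {σ : Type*} (S : SimpleGraph σ) (s : σ) :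
    Prop :=
  ∃ (n : ℕ) (F : SimpleGraph (Fin n)) (x0 : Fin n), InC T k F ∧
    ∀ Q : Set (Fin n), x0 ∈ Q → F.CliqueFreeOn Q (k - 1) →
      ∃ φ : S ↪g F, φ s = x0 ∧ ∀ x, x ≠ s → φ x ∉ Q

/-- Every graph which consists of a vertex and copies of the branches `B i`, attached by their
roots, contains `T`. -/
def StarEmb {τ : Type*} (T : SimpleGraph τ) {ι : Type*} {σ : ι → Type*}
    (B : ∀ i, SimpleGraph (σ i)) (b : ∀ i, σ i) : Prop :=
  ∀ (V : Type) (G : SimpleGraph V) (v : V) (φ : ∀ i, B i ↪g G),
    (∀ i a, φ i a ≠ v) → (∀ i a, G.Adj v (φ i a) ↔ a = b i) →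
    (∀ i j, i ≠ j → ∀ a c, φ i a ≠ φ j c ∧ ¬ G.Adj (φ i a) (φ j c)) → Nonempty (T ↪g G)

/-- The neighbours of a vertex in a copy of a graph contain no `K_(k-1)`. -/
theorem nbr_cliqueFreeOn {V W : Type*} {G : SimpleGraph V} {H : SimpleGraph W} {k : ℕ}
    (hk : 0 < k) (hG : IsEmpty ((⊤ : SimpleGraph (Fin k)) ↪g G)) (e : H ↪g G) (v : V) :
    H.CliqueFreeOn {a | G.Adj v (e a)} (k - 1) := by
  classical
  intro t ht hc
  have hfree : G.CliqueFree k := by
    by_contra hcf
    exact hG.false (SimpleGraph.topEmbeddingOfNotCliqueFree hcf)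
  have h1 : G.IsNClique (k - 1) (t.map e.toEmbedding) := by
    constructor
    · intro x hx y hy hxy
      rw [Finset.coe_map] at hx hy
      obtain ⟨x, hx, rfl⟩ := hx
      obtain ⟨y, hy, rfl⟩ := hy
      exact e.map_adj_iff.2 (hc.1 hx hy (fun h => hxy (by rw [h])))
    · rw [Finset.card_map]; exact hc.2
  have h2 := h1.insert (a := v) (by
    intro y hy
    rw [Finset.mem_map] at hy
    obtain ⟨x, hx, rfl⟩ := hy
    exact ht hx)
  rw [Nat.sub_add_cancel hk] at h2
  exact hfree _ h2

theorem cliqueFreeOn_empty {V : Type*} (G : SimpleGraph V) {n : ℕ} (hn : 0 < n) :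
    G.CliqueFreeOn ∅ n := by
  intro t ht hc
  have h1 : t = ∅ := by
    rw [Finset.eq_empty_iff_forall_notMem]
    intro v hv
    exact (ht hv).elim
  have h2 := hc.2
  rw [h1, Finset.card_empty] at h2
  omega

/-- GLUE+. -/
theorem glue_plus {m : ℕ} {T : SimpleGraph (Fin m)} (hT : T.Connected) {k : ℕ} (hk : 2 ≤ k)
    (hK : InC T k (⊤ : SimpleGraph (Fin 2)))
    {ι : Type} [Finite ι] {σ : ι → Type*} (B : ∀ i, SimpleGraph (σ i)) (b : ∀ i, σ i)
    (hB : ∀ i, Good T k (B i) (b i)) (hstar : StarEmb T B b)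
    {ρ : Type*} (S : SimpleGraph ρ) (s : ρ) (hS : RootGood T k S s) (i0 : ι)
    (hST : Nonempty (T ↪g glue S (B i0) {s} {b i0})) : Splittable T k := by
  classical
  by_contra hns
  obtain ⟨nF, F, x0, hF, hFr⟩ := hS
  have hneι : Nonempty ι := ⟨i0⟩
  obtain ⟨p, ⟨eι⟩⟩ : ∃ p, Nonempty (ι ≃ Fin (p + 1)) := by
    obtain ⟨n, ⟨e⟩⟩ := Finite.exists_equiv_fin ι
    cases n with
    | zero => exact (e i0).elim0
    | succ n => exact ⟨n, ⟨e⟩⟩
  obtain ⟨nH, H, hnH, hH, hHr⟩ := sim hT hk hns B b hB (p + 1)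
  have hneH : Nonempty (Fin nH) := ⟨⟨0, hnH⟩⟩
  obtain ⟨q, γ, hγ, harr⟩ := exists_arrow hns ((F ⊕g H) ⊕g (⊤ : SimpleGraph (Fin 2)))
    ((hF.sum hT (by omega) hH).sum hT (by omega) hK)
    (Option (Fin nH ⊕ (Fin (p + 1) → Finset (Fin nH))))
  obtain ⟨w0⟩ := hneH
  -- maximal anticomplete family
  let P : ℕ → Prop := fun s => ∃ h : Fin s → (H ↪g γ), ∀ i j, i ≠ j →
    ∀ a b, h i a ≠ h j b ∧ ¬ γ.Adj (h i a) (h j b)
  have hP0 : P 0 := ⟨fun i => i.elim0, fun i => i.elim0⟩
  have hPle : ∀ s, P s → s ≤ q := by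
    rintro s ⟨h, hh⟩
    have : Function.Injective (fun i : Fin s => h i w0) := by
      intro i j hij
      by_contra hne
      exact (hh i j hne w0 w0).1 hij
    simpa using Fintype.card_le_of_injective _ this
  obtain ⟨r, hr, hr1⟩ : ∃ s, P s ∧ ¬ P (s + 1) := by
    by_contra hcon
    push Not at hcon
    have : ∀ s, P s := by
      intro s
      induction s with
      | zero => exact hP0
      | succ s ih => exact hcon s ih
    have := hPle (q + 1) (this _)
    omega
  obtain ⟨h, hh⟩ := hr
  -- touched indices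
  let inH : Fin q → Fin nH → Prop := fun v a => ∃ i, h i a = v
  let I : Fin q → Finset (Fin r) := fun v =>
    Finset.univ.filter (fun i => ∃ a, γ.Adj v (h i a))
  have hI : ∀ v, (¬ ∃ a, inH v a) → (I v).card ≤ p := by
    intro v hv
    by_contra hcard
    push Not at hcard
    obtain ⟨J, hJ, hJc⟩ := Finset.exists_subset_card_eq (Nat.succ_le_of_lt hcard)
    let g0 : Fin (p + 1) ↪o Fin r := J.orderEmbOfFin (by omega)
    let g : ι → Fin r := fun j => g0 (eι j)
    have hginj : Function.Injective g := g0.injective.comp eι.injective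
    have hg : ∀ j, g j ∈ I v := fun j => hJ (Finset.orderEmbOfFin_mem J (by omega) (eι j))
    have hex : ∀ j, ∃ φ : B j ↪g H, γ.Adj v (h (g j) (φ (b j))) ∧
        ∀ x, x ≠ b j → ¬ γ.Adj v (h (g j) (φ x)) := by
      intro j
      have hgj := hg j
      simp only [I, Finset.mem_filter, Finset.mem_univ, true_and] at hgj
      obtain ⟨a, ha⟩ := hgj
      obtain ⟨φ, ⟨-, h1⟩, h2⟩ := hHr j (fun _ => {a | γ.Adj v (h (g j) a)})
        (fun _ => nbr_cliqueFreeOn (by omega) hγ.2 (h (g j)) v) ⟨0, a, ha⟩
      exact ⟨φ, h1, fun x hx => h2 x hx 0⟩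
    choose φ hφ1 hφ2 using hex
    apply hγ.1.false
    refine (hstar (Fin q) γ v (fun j => (φ j).trans (h (g j))) ?_ ?_ ?_).some
    · intro i a hav
      exact hv ⟨φ i a, g i, hav⟩
    · intro i a
      constructor
      · intro hadj
        by_contra hne
        exact hφ2 i a hne hadj
      · rintro rfl
        exact hφ1 i
    · intro i j hij a c
      exact hh (g i) (g j) (fun hg' => hij (hginj hg')) _ _
  -- enumeration of the touched indices
  have hgex : ∀ v, ∃ g : Fin (p + 1) → Option (Fin r), (¬ ∃ a, inH v a) →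
      ∀ i ∈ I v, ∃ j, g j = some i := by
    intro v
    by_cases hv : ¬ ∃ a, inH v a
    · let J := I v
      have hJ : J.card ≤ p := hI v hv
      refine ⟨fun j => if hj : (j : ℕ) < J.card then some (J.orderEmbOfFin rfl ⟨j, hj⟩)
        else none, ?_⟩
      intro _ i hi
      have hi' : i ∈ Set.range (J.orderEmbOfFin rfl) := by
        rw [Finset.range_orderEmbOfFin]
        exact hi
      obtain ⟨j, hj⟩ := hi'
      refine ⟨⟨j, by have := j.2; omega⟩, ?_⟩
      simp only [j.2, dif_pos]
      rw [hj]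
    · exact ⟨fun _ => none, fun h => absurd h hv⟩
  choose g hg using hgex
  let pat : Fin q → Fin (p + 1) → Finset (Fin nH) := fun v j =>
    Finset.univ.filter (fun a => ∃ i, g v j = some i ∧ γ.Adj v (h i a))
  let col : Fin q → Option (Fin nH ⊕ (Fin (p + 1) → Finset (Fin nH))) := fun v =>
    if hv : ∃ a, inH v a then some (Sum.inl (Classical.choose hv))
    else if (I v).Nonempty then some (Sum.inr (pat v)) else none
  obtain ⟨e, he⟩ := harr col
  let eF : F ↪g γ := (SimpleGraph.Embedding.sumInl.trans SimpleGraph.Embedding.sumInl).trans e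
  let eH : H ↪g γ := (SimpleGraph.Embedding.sumInr.trans SimpleGraph.Embedding.sumInl).trans e
  let eK : (⊤ : SimpleGraph (Fin 2)) ↪g γ := SimpleGraph.Embedding.sumInr.trans e
  have hcol : ∃ c, (∀ x, col (eF x) = c) ∧ (∀ x, col (eH x) = c) ∧ (∀ x, col (eK x) = c) := by
    refine ⟨col (e (Sum.inr 0)), ?_, ?_, ?_⟩
    · intro x; exact he _ _
    · intro x; exact he _ _
    · intro x; exact he _ _
  obtain ⟨c, hcF, hcH, hcK⟩ := hcol
  rcases c with _ | (a | A)
  · -- none: H extends the family
    exfalso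
    apply hr1
    have hH' : ∀ x, (¬ ∃ a, inH (eH x) a) ∧ ¬ (I (eH x)).Nonempty := by
      intro x
      have h1 := hcH x
      simp only [col] at h1
      split_ifs at h1 with h2 h3
      exact ⟨h2, h3⟩
    have hH2 : ∀ x i b, ¬ γ.Adj (eH x) (h i b) := by
      intro x i b hadj
      exact (hH' x).2 ⟨i, Finset.mem_filter.2 ⟨Finset.mem_univ _, b, hadj⟩⟩
    refine ⟨Fin.snoc (α := fun _ => H ↪g γ) h eH, ?_⟩
    intro i j hij a b
    induction i using Fin.lastCases with
    | last =>
      induction j using Fin.lastCases with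
      | last => exact absurd rfl hij
      | cast j =>
        rw [Fin.snoc_last, Fin.snoc_castSucc]
        refine ⟨fun hab => (hH' a).1 ⟨b, j, hab.symm⟩, hH2 _ _ _⟩
    | cast i =>
      induction j using Fin.lastCases with
      | last =>
        rw [Fin.snoc_last, Fin.snoc_castSucc]
        refine ⟨fun hab => (hH' b).1 ⟨a, i, hab⟩, fun hab => hH2 _ _ _ hab.symm⟩
      | cast j =>
        rw [Fin.snoc_castSucc, Fin.snoc_castSucc]
        exact hh i j (fun h => hij (by rw [h])) a b
  · -- position class: independent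
    exfalso
    have hpos : ∀ x, ∃ i, h i a = eK x := by
      intro x
      have h1 := hcK x
      simp only [col] at h1
      split_ifs at h1 with h2 h3
      · have h4 := Classical.choose_spec h2
        simp only [Option.some.injEq, Sum.inl.injEq] at h1
        rw [h1] at h4
        exact h4
      · simp at h1
    obtain ⟨i, hi⟩ := hpos 0
    obtain ⟨j, hj⟩ := hpos 1
    have hadj : γ.Adj (eK 0) (eK 1) := by
      rw [eK.map_adj_iff]
      simp
    rw [← hi, ← hj] at hadj
    by_cases hij : i = j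
    · subst hij
      exact γ.loopless.irrefl _ hadj
    · exact (hh i j hij a a).2 hadj
  · -- pattern class
    have hpat : ∀ x, (¬ ∃ a, inH (eF x) a) ∧ (I (eF x)).Nonempty ∧ pat (eF x) = A := by
      intro x
      have h1 := hcF x
      simp only [col] at h1
      split_ifs at h1 with h2 h3
      · simp at h1
      · simp only [Option.some.injEq, Sum.inr.injEq] at h1
        exact ⟨h2, h3, h1⟩
    -- all neighbours in the family are in the patterns
    have hcover : ∀ x i w, γ.Adj (eF x) (h i w) → ∃ j, g (eF x) j = some i ∧ w ∈ A j := by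
      intro x i w hadj
      obtain ⟨j, hj⟩ := hg (eF x) (hpat x).1 i
        (Finset.mem_filter.2 ⟨Finset.mem_univ _, w, hadj⟩)
      refine ⟨j, hj, ?_⟩
      rw [← (hpat x).2.2]
      exact Finset.mem_filter.2 ⟨Finset.mem_univ _, i, hj, hadj⟩
    have hAf : ∀ j, H.CliqueFreeOn (A j : Set (Fin nH)) (k - 1) := by
      intro j
      rcases hgj : g (eF x0) j with _ | i
      · have : (A j : Set (Fin nH)) = ∅ := by
          rw [← (hpat x0).2.2]
          ext a
          simp [pat, hgj]
        rw [this]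
        exact cliqueFreeOn_empty _ (by omega)
      · intro t ht hc
        refine nbr_cliqueFreeOn (by omega) hγ.2 (h i) (eF x0) (t := t) ?_ hc
        intro a ha
        have ha' := ht ha
        rw [← (hpat x0).2.2] at ha'
        simp only [pat, Finset.coe_filter, Finset.mem_univ, true_and] at ha'
        obtain ⟨i', hi', hadj⟩ := ha'
        rw [hgj] at hi'
        rw [Option.some_inj.1 hi']
        exact hadj
    obtain ⟨i1, hi1⟩ := (hpat x0).2.1
    obtain ⟨a1, ha1⟩ := (Finset.mem_filter.1 hi1).2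
    obtain ⟨j1, -, hj1⟩ := hcover x0 i1 a1 ha1
    obtain ⟨φ, ⟨j, hφj⟩, hφ⟩ := hHr i0 (fun j => (A j : Set (Fin nH))) hAf ⟨j1, a1, hj1⟩
    set w := φ (b i0) with hw
    -- the copy of H seen by x0 in the pattern j
    have hwj : w ∈ A j := hφj
    rw [← (hpat x0).2.2] at hwj
    obtain ⟨i, hi, hadj0⟩ := (Finset.mem_filter.1 hwj).2
    let Q : Set (Fin nF) := {x | γ.Adj (h i w) (eF x)}
    obtain ⟨ψ, hψ0, hψ⟩ := hFr Q hadj0.symm
      (nbr_cliqueFreeOn (by omega) hγ.2 eF (h i w))
    have hcross : ∀ x y, γ.Adj (eF (ψ x)) (h i (φ y)) ↔ x = s ∧ y = b i0 := by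
      intro x y
      constructor
      · intro hadj
        have hy : y = b i0 := by
          by_contra hne
          obtain ⟨j', -, hj'⟩ := hcover _ _ _ hadj
          exact hφ y hne j' hj'
        refine ⟨?_, hy⟩
        by_contra hne
        apply hψ x hne
        rw [hy] at hadj
        exact hadj.symm
      · rintro ⟨rfl, rfl⟩
        rw [hψ0]
        exact hadj0
    obtain ⟨f⟩ := hST
    apply hγ.1.false
    refine f.trans ⟨⟨Sum.elim (fun x => eF (ψ x)) (fun y => h i (φ y)), ?_⟩, ?_⟩
    · rintro (x | x) (y | y) hxy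
      · simp only [Sum.elim_inl] at hxy
        rw [ψ.injective (eF.injective hxy)]
      · simp only [Sum.elim_inl, Sum.elim_inr] at hxy
        exact absurd ⟨φ y, i, hxy.symm⟩ (hpat (ψ x)).1
      · simp only [Sum.elim_inl, Sum.elim_inr] at hxy
        exact absurd ⟨φ x, i, hxy⟩ (hpat (ψ y)).1
      · simp only [Sum.elim_inr] at hxy
        rw [φ.injective ((h i).injective hxy)]
    · rintro (x | x) (y | y)
      · exact eF.map_adj_iff.trans ψ.map_adj_iff
      · exact hcross x y
      · exact (γ.adj_comm _ _).trans (hcross y x)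
      · exact (h i).map_adj_iff.trans φ.map_adj_iff

end Pool.Agent.SA32
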