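import Pool.Agent.SA33.Edge

set_option autoImplicit false

/-! Simultaneous goodness: in an unsplittable class finitely many good rooted graphs are
simultaneously good, even against unions of several `K_(k-1)`-free sets. -/

namespace Pool.Agent.SA32

open SimpleGraph Pool.Agent.SA33

/-- Disjoint union of a family of graphs. -/
def sig {ι : Type*} {V : ι → Type*} (G : ∀ i, SimpleGraph (V i)) : SimpleGraph (Σ i, V i) where
  Adj x y := ∃ (i : ι) (a b : V i), x = ⟨i, a⟩ ∧ y = ⟨i, b⟩ ∧ (G i).Adj a b
  symm := ⟨by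
    rintro x y ⟨i, a, b, hx, hy, h⟩
    exact ⟨i, b, a, hy, hx, h.symm⟩⟩
  loopless := ⟨by
    rintro x ⟨i, a, b, hx, hy, h⟩
    rw [hx] at hy
    obtain ⟨-, h2⟩ := Sigma.mk.inj_iff.1 hy
    rw [eq_of_heq h2] at h
    exact (G i).loopless.irrefl b h⟩

theorem sig_adj {ι : Type*} {V : ι → Type*} (G : ∀ i, SimpleGraph (V i)) (i : ι) (a b : V i) :
    (sig G).Adj ⟨i, a⟩ ⟨i, b⟩ ↔ (G i).Adj a b := by
  constructor
  · rintro ⟨j, c, d, hx, hy, h⟩
    obtain ⟨rfl, hc⟩ := Sigma.mk.inj_iff.1 hx
    obtain ⟨-, hd⟩ := Sigma.mk.inj_iff.1 hy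
    rw [eq_of_heq hc, eq_of_heq hd]
    exact h
  · intro h
    exact ⟨i, a, b, rfl, rfl, h⟩

theorem sig_adj_fst {ι : Type*} {V : ι → Type*} {G : ∀ i, SimpleGraph (V i)} {x y : Σ i, V i}
    (h : (sig G).Adj x y) : x.1 = y.1 := by
  obtain ⟨i, a, b, rfl, rfl, -⟩ := h
  rfl

/-- The inclusion of a summand. -/
def sigIncl {ι : Type*} {V : ι → Type*} (G : ∀ i, SimpleGraph (V i)) (i : ι) :
    G i ↪g sig G :=
  ⟨⟨fun a => ⟨i, a⟩, fun a b h => eq_of_heq (Sigma.mk.inj_iff.1 h).2⟩, by
    intro a b
    exact sig_adj G i a b⟩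

theorem embed_sig {α ι : Type*} {V : ι → Type*} {T : SimpleGraph α} (hT : T.Connected)
    {G : ∀ i, SimpleGraph (V i)} (f : T ↪g sig G) : ∃ i, Nonempty (T ↪g G i) := by
  classical
  obtain ⟨x0⟩ := hT.nonempty
  have key : ∀ x y, T.Reachable x y → (f x).1 = (f y).1 := by
    intro x y h
    obtain ⟨p⟩ := h
    induction p with
    | nil => rfl
    | cons h p ih =>
      exact (sig_adj_fst (f.map_adj_iff.2 h)).trans ih
  obtain ⟨i0, hi0⟩ : ∃ i0, i0 = (f x0).1 := ⟨_, rfl⟩
  refine ⟨i0, ?_⟩
  have hl : ∀ x, ∃ v : V i0, f x = ⟨i0, v⟩ := by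
    intro x
    have h := key x x0 (hT.preconnected x x0)
    rw [← hi0] at h
    rcases hx : f x with ⟨i, v⟩
    rw [hx] at h
    simp only at h
    subst h
    exact ⟨v, rfl⟩
  choose g hg using hl
  refine ⟨⟨⟨g, ?_⟩, ?_⟩⟩
  · intro x y h
    apply f.injective
    rw [hg, hg, h]
  · intro x y
    have h1 := f.map_adj_iff (v := x) (w := y)
    rw [hg, hg, sig_adj] at h1
    exact h1

theorem sig_inC {τ : Type*} {T : SimpleGraph τ} (hT : T.Connected) {k : ℕ} (hk : 0 < k)
    {ι : Type*} {V : ι → Type*} {G : ∀ i, SimpleGraph (V i)} (hG : ∀ i, InC T k (G i)) :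
    InC T k (sig G) := by
  refine ⟨⟨fun f => ?_⟩, ⟨fun f => ?_⟩⟩
  · obtain ⟨i, ⟨g⟩⟩ := embed_sig hT f
    exact (hG i).1.false g
  · obtain ⟨i, ⟨g⟩⟩ := embed_sig (top_connected hk) f
    exact (hG i).2.false g

/-- `M` is robust for `(S, s)` against unions of `N` sets without `K_(k-1)`. -/
def RobustN {σ V : Type*} (S : SimpleGraph σ) (s : σ) (k N : ℕ) (M : SimpleGraph V) : Prop :=
  ∀ A : Fin N → Set V, (∀ a, M.CliqueFreeOn (A a) (k - 1)) → (∃ a, (A a).Nonempty) →
    ∃ φ : S ↪g M, (∃ a, φ s ∈ A a) ∧ ∀ x, x ≠ s → ∀ a, φ x ∉ A a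

theorem cliqueFreeOn_comap {V W : Type*} {G : SimpleGraph V} {H : SimpleGraph W} (e : G ↪g H)
    {A : Set W} {n : ℕ} (h : H.CliqueFreeOn A n) : G.CliqueFreeOn (e ⁻¹' A) n := by
  classical
  intro t ht hc
  refine h (t := t.map e.toEmbedding) ?_ ⟨?_, ?_⟩
  · intro x hx
    rw [Finset.coe_map] at hx
    obtain ⟨y, hy, rfl⟩ := hx
    exact ht hy
  · intro x hx y hy hxy
    rw [Finset.coe_map] at hx hy
    obtain ⟨x, hx, rfl⟩ := hx
    obtain ⟨y, hy, rfl⟩ := hy
    exact e.map_adj_iff.2 (hc.1 hx hy (fun h => hxy (by rw [h])))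
  · rw [Finset.card_map]
    exact hc.2

theorem cliqueFreeOn_image {V W : Type*} {G : SimpleGraph V} {H : SimpleGraph W} (e : G ↪g H)
    {A : Set V} {n : ℕ} (h : G.CliqueFreeOn A n) : H.CliqueFreeOn (e '' A) n := by
  classical
  intro t ht hc
  apply h (t := t.preimage e e.injective.injOn)
  · intro x hx
    rw [Finset.coe_preimage] at hx
    obtain ⟨y, hy, hyx⟩ := ht hx
    rwa [← e.injective hyx]
  · constructor
    · intro x hx y hy hxy
      rw [Finset.coe_preimage] at hx hy
      exact e.map_adj_iff.1 (hc.1 hx hy (fun h => hxy (e.injective h)))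
    · rw [← hc.2, ← Finset.card_image_of_injective _ e.injective]
      congr 1
      ext x
      simp only [Finset.mem_image, Finset.mem_preimage]
      constructor
      · rintro ⟨y, hy, rfl⟩; exact hy
      · intro hx
        obtain ⟨y, hy, hyx⟩ := ht hx
        exact ⟨y, hyx ▸ hx, hyx⟩

/-- SIM. -/
theorem sim {m : ℕ} {T : SimpleGraph (Fin m)} (hT : T.Connected) {k : ℕ} (hk : 2 ≤ k)
    (hns : ¬ Splittable T k) {ι : Type} [Finite ι] [Nonempty ι] {σ : ι → Type*}
    (S : ∀ i, SimpleGraph (σ i)) (s : ∀ i, σ i) (hS : ∀ i, Good T k (S i) (s i)) (N : ℕ) :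
    ∃ (n : ℕ) (M : SimpleGraph (Fin n)), 0 < n ∧ InC T k M ∧ ∀ i, RobustN (S i) (s i) k N M := by
  classical
  obtain ⟨j00⟩ := ‹Nonempty ι›
  by_contra hcon
  push Not at hcon
  -- peeling
  have key : ∀ (n : ℕ) (p : ℕ) (γ : SimpleGraph (Fin p)), InC T k γ → ∀ X : Finset (Fin p),
      X.card = n → ∃ (lev : Fin p → ℕ) (col : Fin p → ι × Fin N),
        (∀ j c, γ.CliqueFreeOn {v | v ∈ X ∧ lev v = j ∧ col v = c} (k - 1)) ∧
        ∀ (i : ι) (φ : S i ↪g γ), (∀ x, φ x ∈ X) → (col (φ (s i))).1 = i →
          ∃ x, x ≠ s i ∧ lev (φ x) ≤ lev (φ (s i)) := by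
    intro n
    induction n using Nat.strong_induction_on with
    | _ n ih =>
      intro p γ hγ X hX
      rcases Nat.eq_zero_or_pos n with h0 | hpos
      · have hX0 : X = ∅ := Finset.card_eq_zero.1 (hX.trans h0)
        by_cases hN : 0 < N
        · refine ⟨fun _ => 0, fun _ => (j00, ⟨0, hN⟩), ?_, ?_⟩
          · intro j c u hu hc
            have h1 : u = ∅ := by
              rw [Finset.eq_empty_iff_forall_notMem]
              intro v hv
              have := (hu hv).1
              rw [hX0] at this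
              exact absurd this (Finset.notMem_empty _)
            have h2 := hc.2
            rw [h1, Finset.card_empty] at h2
            omega
          · intro i φ hφ _
            have hv := hφ (s i)
            rw [hX0] at hv
            exact absurd hv (Finset.notMem_empty _)
        · exfalso
          -- N = 0: everything is robust
          have hN0 : N = 0 := by omega
          subst hN0
          obtain ⟨n', M, hn', hM, -⟩ := hS j00
          obtain ⟨i, hi⟩ := hcon n' M hn' hM
          apply hi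
          rintro A - ⟨a, -⟩
          exact a.elim0
      · -- the induced subgraph on X
        have hcard : Fintype.card X = n := by rw [Fintype.card_coe, hX]
        let eX : Fin n ≃ X := (Fintype.equivFinOfCardEq hcard).symm
        let F : SimpleGraph (Fin n) := γ.comap (fun i => ((eX i : X) : Fin p))
        have hinj : Function.Injective (fun i => ((eX i : X) : Fin p)) :=
          Subtype.val_injective.comp eX.injective
        let em : F ↪g γ := ⟨⟨fun i => ((eX i : X) : Fin p), hinj⟩, by intro a b; rfl⟩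
        have hemX : ∀ i, em i ∈ X := fun i => (eX i).2
        have hems : ∀ x ∈ X, ∃ i, em i = x := fun x hx =>
          ⟨eX.symm ⟨x, hx⟩, by change ((eX (eX.symm ⟨x, hx⟩) : X) : Fin p) = x; simp⟩
        have hF : InC T k F := hγ.comap em
        obtain ⟨i0, hi0⟩ := hcon n F hpos hF
        unfold RobustN at hi0
        push Not at hi0
        obtain ⟨A, hAf, ⟨a0, ha0⟩, hA⟩ := hi0
        -- the removed set
        let W : Set (Fin p) := {v | ∃ a, v ∈ em '' A a}
        let X' : Finset (Fin p) := X.filter (fun x => x ∉ W)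
        have hX'X : X' ⊆ X := Finset.filter_subset _ _
        have hX'card : X'.card < n := by
          rw [← hX]
          apply Finset.card_lt_card
          refine ⟨hX'X, fun h => ?_⟩
          obtain ⟨b, hb⟩ := ha0
          have h2 := h (hemX b)
          rw [Finset.mem_filter] at h2
          exact h2.2 ⟨a0, b, hb, rfl⟩
        obtain ⟨lev', col', h1, h2⟩ := ih _ hX'card p γ hγ X' rfl
        refine ⟨fun v => if v ∈ W then 0 else lev' v + 1,
          fun v => if hv : v ∈ W then (i0, hv.choose) else col' v, ?_, ?_⟩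
        · intro j c
          cases j with
          | zero =>
            -- subset of em '' A c.2
            intro u hu hc
            refine cliqueFreeOn_image em (hAf c.2) (t := u) ?_ hc
            intro v hv
            obtain ⟨hvX, hv0, hvc⟩ := hu hv
            have hvW : v ∈ W := by
              by_contra hvW
              simp [hvW] at hv0
            simp only [dif_pos hvW] at hvc
            have h3 := hvW.choose_spec
            have h4 : hvW.choose = c.2 := by rw [← hvc]
            rw [h4] at h3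
            exact h3
          | succ j =>
            intro u hu hc
            refine h1 j c (t := u) ?_ hc
            intro v hv
            obtain ⟨hvX, hv0, hvc⟩ := hu hv
            have hvW : v ∉ W := by
              intro hvW
              simp [hvW] at hv0
            simp only [dif_neg hvW] at hvc
            simp only [hvW, if_false, Nat.add_right_cancel_iff] at hv0
            exact ⟨Finset.mem_filter.2 ⟨hvX, hvW⟩, hv0, hvc⟩
        · intro i φ hφX hcol
          by_cases hvW : φ (s i) ∈ W
          · simp only [dif_pos hvW] at hcol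
            subst hcol
            -- lift φ to F
            have hlift : ∀ x, ∃ i, em i = φ x := fun x => hems _ (hφX x)
            choose g hg using hlift
            let φ' : S i0 ↪g F := ⟨⟨g, fun a b h => φ.injective (by rw [← hg, ← hg, h])⟩, by
              intro a b
              change F.Adj (g a) (g b) ↔ (S i0).Adj a b
              rw [← em.map_adj_iff, hg, hg, φ.map_adj_iff]⟩
            obtain ⟨a, y, hy, hyv⟩ := id hvW
            have hroot : φ' (s i0) ∈ A a := by
              have : g (s i0) = y := by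
                apply em.injective
                rw [hg, hyv]
              change g (s i0) ∈ A a
              rw [this]; exact hy
            obtain ⟨x, hx, a', hxa⟩ := hA φ' ⟨a, hroot⟩
            refine ⟨x, hx, ?_⟩
            have : φ x ∈ W := ⟨a', g x, hxa, hg x⟩
            simp [this]
          · simp only [dif_neg hvW] at hcol
            by_cases hall : ∀ x, φ x ∈ X'
            · obtain ⟨x, hx, hle⟩ := h2 i φ hall hcol
              refine ⟨x, hx, ?_⟩
              have hxW : φ x ∉ W := (Finset.mem_filter.1 (hall x)).2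
              simp only [hxW, hvW, if_false]
              omega
            · push Not at hall
              obtain ⟨x, hx⟩ := hall
              have hxW : φ x ∈ W := by
                by_contra hxW
                exact hx (Finset.mem_filter.2 ⟨hφX x, hxW⟩)
              refine ⟨x, ?_, ?_⟩
              · rintro rfl
                exact hvW hxW
              · simp [hxW]
  -- arrowing
  choose nM M hM0 hMC hMr using hS
  obtain ⟨p, γ, hγ, harr⟩ := exists_arrow hns (sig M) (sig_inC hT (by omega) hMC)
    (ι × Fin N)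
  obtain ⟨lev, col, h1, h2⟩ := key _ p γ hγ Finset.univ rfl
  obtain ⟨e, he⟩ := harr col
  -- the common colour
  let c : ι × Fin N := col (e ⟨j00, ⟨0, hM0 _⟩⟩)
  have hc : ∀ x, col (e x) = c := fun x => he _ _
  let i := c.1
  let eM : M i ↪g γ := (sigIncl M i).trans e
  have hcM : ∀ x, col (eM x) = c := fun x => hc _
  have hne : Nonempty (Fin (nM i)) := ⟨⟨0, hM0 i⟩⟩
  obtain ⟨v0, hv0⟩ : ∃ v0, ∀ v, lev (eM v0) ≤ lev (eM v) := by
    obtain ⟨v0, _, h0⟩ := Finset.exists_min_image (Finset.univ : Finset (Fin (nM i)))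
      (fun v => lev (eM v)) Finset.univ_nonempty
    exact ⟨v0, fun v => h0 v (Finset.mem_univ v)⟩
  let M' : Set (Fin (nM i)) := {v | lev (eM v) = lev (eM v0)}
  obtain ⟨φ, hφ1, hφ2⟩ := hMr i M' ⟨v0, rfl⟩ (by
    have h3 := cliqueFreeOn_comap eM (h1 (lev (eM v0)) c)
    intro u hu hcl
    refine h3 (t := u) ?_ hcl
    intro v hv
    exact ⟨Finset.mem_univ _, hu hv, hcM v⟩)
  obtain ⟨x, hx, hle⟩ := h2 i (φ.trans eM) (fun _ => Finset.mem_univ _)
    (by change (col (eM (φ (s i)))).1 = i; rw [hcM])
  have h4 : φ x ∉ M' := hφ2 x hx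
  have h5 : lev (eM (φ (s i))) = lev (eM v0) := hφ1
  have h6 : lev (eM v0) ≤ lev (eM (φ x)) := hv0 _
  have h7 : lev (eM (φ x)) ≤ lev (eM (φ (s i))) := hle
  exact h4 (le_antisymm (by rw [← h5]; exact h7) h6)

end Pool.Agent.SA32
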